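import Mathlib

/-!
A transitive finitary `p`-group on a countably infinite set none of whose transitive subgroups
has the cyclic-block property.

`Γ` is the set of finitely supported sequences over `ℤ/p`, `Δ = ℤ/p × ℤ/p² × ℤ/p²`, and
`S` consists of the finitary permutations of `Γ × Δ` which permute the fibres `{γ} × Δ` by a
triangular permutation of `Γ` and act between fibres by the maps
`(x, y, z) ↦ (x + u, y + v, z + w + u y)` (Heisenberg group modulo `p²`).
-/

namespace Pool.Agent.Results.MP_f6f917_al.CyclicBlocks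

open Equiv

section Defs

variable {Ω : Type*}

/-- The group of finitary permutations. -/
def FSym (Ω : Type*) : Subgroup (Perm Ω) where
  carrier := {g | {x | g x ≠ x}.Finite}
  one_mem' := by simp
  mul_mem' := by
    intro g h hg hh
    refine (Set.Finite.union hg hh).subset ?_
    intro x hx
    by_contra hcon
    simp only [Set.mem_union, Set.mem_ofPred_eq, not_or, not_not] at hcon
    apply hx
    rw [Perm.mul_apply, hcon.2, hcon.1]
  inv_mem' := by
    intro g hg
    refine Set.Finite.subset hg ?_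
    intro x hx hgx
    apply hx
    rw [Perm.inv_eq_iff_eq]
    exact hgx.symm

/-- Transitivity. -/
def IsTrans (H : Subgroup (Perm Ω)) : Prop := ∀ x y : Ω, ∃ g ∈ H, g x = y

/-- Blocks: nonempty sets `B` such that each translate of `B` is `B` or disjoint from `B`. -/
def IsBlk (H : Subgroup (Perm Ω)) (B : Set Ω) : Prop :=
  B.Nonempty ∧ ∀ h ∈ H, h '' B = B ∨ Disjoint (h '' B) B

/-- Totally imprimitive: transitive, and every finite set lies in a finite block. -/
def IsTotImprim (H : Subgroup (Perm Ω)) : Prop :=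
  IsTrans H ∧ ∀ F : Set Ω, F.Finite → ∃ B : Set Ω, B.Finite ∧ F ⊆ B ∧ IsBlk H B

/-- `S` is a Sylow `p`-subgroup of `G`: a maximal `p`-subgroup. -/
def IsSylowSub (p : ℕ) (G S : Subgroup (Perm Ω)) : Prop :=
  S ≤ G ∧ IsPGroup p S ∧ ∀ Q : Subgroup (Perm Ω), Q ≤ G → IsPGroup p Q → S ≤ Q → Q = S

/-- The cyclic-block property: `H` is a totally imprimitive finitary `p`-group, and the support
of each cycle (the set of points `(h ^ n) x`) of each `h ∈ H` is a block for `H`. -/
def HasCyclicBlocks (p : ℕ) (H : Subgroup (Perm Ω)) : Prop :=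
  H ≤ FSym Ω ∧ IsPGroup p H ∧ IsTotImprim H ∧
    ∀ h ∈ H, ∀ x : Ω, IsBlk H {y | ∃ n : ℤ, (h ^ n) x = y}

end Defs

section Construction

variable (p : ℕ)

/-- finitely supported sequences -/
abbrev Gam : Type := ℕ →₀ ZMod p

/-- the fibre -/
abbrev Del : Type := ZMod p × ZMod (p ^ 2) × ZMod (p ^ 2)

/-- reduction modulo `p` -/
def red : ZMod (p ^ 2) →+* ZMod p := ZMod.castHom (dvd_pow_self p two_ne_zero) (ZMod p)

variable {p}

/-- the Heisenberg action -/
def act (u v w : ZMod (p ^ 2)) (d : Del p) : Del p :=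
  (d.1 + red p u, d.2.1 + v, d.2.2 + w + u * d.2.1)

lemma act_act (u v w u' v' w' : ZMod (p ^ 2)) (d : Del p) :
    act u v w (act u' v' w' d) = act (u' + u) (v' + v) (w' + w + u * v') d := by
  simp only [act, map_add]
  refine Prod.ext ?_ (Prod.ext ?_ ?_)
  · simp only; ring
  · simp only; ring
  · simp only; ring

lemma act_iter (u v w : ZMod (p ^ 2)) (j : ℕ) :
    ∃ c : ZMod (p ^ 2), ∀ d : Del p, (act u v w)^[j] d = act ((j : ZMod (p ^ 2)) * u) ((j : ZMod (p ^ 2)) * v) c d := by
  induction j with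
  | zero =>
    refine ⟨0, fun d => ?_⟩
    simp [act]
  | succ j ih =>
    obtain ⟨c, hc⟩ := ih
    refine ⟨c + w + u * ((j : ZMod (p ^ 2)) * v), fun d => ?_⟩
    rw [Function.iterate_succ_apply', hc, act_act]
    congr 1 <;> push_cast <;> ring

lemma act_iter_p4 (u v w : ZMod (p ^ 2)) (d : Del p) : (act u v w)^[p ^ 4] d = d := by
  have hz : ((p ^ 2 : ℕ) : ZMod (p ^ 2)) = 0 := ZMod.natCast_self _
  obtain ⟨c, hc⟩ := act_iter (p := p) u v w (p ^ 2)
  have h1 : (act u v w)^[p ^ 2] = act (p := p) 0 0 c := by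
    funext d
    rw [hc d, hz, zero_mul, zero_mul]
  have h2 : ∀ j : ℕ, ∀ d : Del p, (act (p := p) 0 0 c)^[j] d = act 0 0 ((j : ZMod (p ^ 2)) * c) d := by
    intro j
    induction j with
    | zero => intro d; simp [act]
    | succ j ih =>
      intro d
      rw [Function.iterate_succ_apply', ih, act_act]
      congr 1
      · ring
      · ring
      · push_cast; ring
  have h3 : p ^ 4 = p ^ 2 * p ^ 2 := by ring
  rw [h3, Function.iterate_mul, h1, h2, hz, zero_mul]
  simp [act]

/-- triangular permutations of the sequences -/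
def Tri (w : Perm (Gam p)) : Prop :=
  ∀ (n : ℕ) (x y : Gam p), (∀ m, n < m → x m = y m) → w x n - x n = w y n - y n

lemma Tri.agree {w : Perm (Gam p)} (hw : Tri w) {n : ℕ} {x y : Gam p}
    (h : ∀ m, n < m → x m = y m) : ∀ m, n < m → w x m = w y m := by
  intro m hm
  have h1 := hw m x y fun k hk => h k (hm.trans hk)
  have h2 := h m hm
  rw [h2] at h1
  exact sub_left_inj.1 h1

lemma Tri.mul {w w' : Perm (Gam p)} (hw : Tri w) (hw' : Tri w') : Tri (w * w') := by
  intro n x y h
  have h1 := hw' n x y h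
  have h2 := hw n (w' x) (w' y) (hw'.agree h)
  rw [Perm.mul_apply, Perm.mul_apply]
  linear_combination h1 + h2

lemma Tri.one : Tri (1 : Perm (Gam p)) := by
  intro n x y _
  simp

lemma Tri.pow {w : Perm (Gam p)} (hw : Tri w) (n : ℕ) : Tri (w ^ n) := by
  induction n with
  | zero => rw [pow_zero]; exact Tri.one
  | succ n ih => rw [pow_succ]; exact ih.mul hw

lemma Tri.torsion [Fact p.Prime] {w : Perm (Gam p)} (hw : Tri w)
    (hfin : {x | w x ≠ x}.Finite) : ∃ k, w ^ p ^ k = 1 := by
  classical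
  -- bound for the supports
  obtain ⟨N, hN⟩ : ∃ N : ℕ, ∀ x : Gam p, w x ≠ x → ∀ m, N ≤ m → x m = 0 := by
    let F : Finset ℕ := hfin.toFinset.biUnion fun x => x.support
    refine ⟨F.sup id + 1, fun x hx m hm => ?_⟩
    by_contra hne
    have h1 : m ∈ F := by
      simp only [F, Finset.mem_biUnion, Set.Finite.mem_toFinset]
      exact ⟨x, hx, by simpa using hne⟩
    have h2 : m ≤ F.sup id := Finset.le_sup (f := id) h1
    omega
  have hfix : ∀ x : Gam p, ∀ m, N ≤ m → w x m = x m := by
    intro x m hm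
    by_cases hx : w x = x
    · rw [hx]
    · have h0 : x m = 0 := hN x hx m hm
      have h1 : w (x + Finsupp.single m 1) = x + Finsupp.single m 1 := by
        by_contra hne
        have h2 := hN _ hne m hm
        rw [Finsupp.add_apply, h0, Finsupp.single_eq_same, zero_add] at h2
        exact one_ne_zero h2
      have h2 := hw m x (x + Finsupp.single m 1) fun k hk => by
        rw [Finsupp.add_apply, Finsupp.single_eq_of_ne (by omega), add_zero]
      rw [h1, sub_self] at h2
      exact sub_eq_zero.1 h2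
  have hind : ∀ k : ℕ, ∀ x : Gam p, ∀ m, N ≤ m + k → (w ^ p ^ k) x m = x m := by
    intro k
    induction k with
    | zero =>
      intro x m hm
      simpa using hfix x m (by omega)
    | succ k ih =>
      intro x m hm
      set h := w ^ p ^ k with hh
      have hT : Tri h := hw.pow _
      have hagree : ∀ (j : ℕ), ∀ m', m < m' → (h ^ j) x m' = x m' := by
        intro j
        induction j with
        | zero => intro m' _; simp
        | succ j ihj =>
          intro m' hm'
          rw [pow_succ', Perm.mul_apply, ih _ m' (by omega), ihj m' hm']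
      have hsum : ∀ j : ℕ, (h ^ j) x m = x m + j * (h x m - x m) := by
        intro j
        induction j with
        | zero => simp
        | succ j ihj =>
          have h1 := hT m ((h ^ j) x) x (hagree j)
          rw [pow_succ', Perm.mul_apply]
          push_cast
          linear_combination h1 + ihj
      have h2 := hsum p
      rw [CharP.cast_eq_zero, zero_mul, add_zero] at h2
      rw [pow_succ p k, pow_mul]
      exact h2
  refine ⟨N, ?_⟩
  ext x m
  rw [hind N x m (by omega)]
  rfl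

/-- `g` permutes the fibres according to `w` and acts between fibres by the Heisenberg maps. -/
def Over (g : Perm (Gam p × Del p)) (w : Perm (Gam p)) : Prop :=
  ∀ γ : Gam p, ∃ u v z : ZMod (p ^ 2), ∀ d : Del p, g (γ, d) = (w γ, act u v z d)

lemma Over.mul {g g' : Perm (Gam p × Del p)} {w w' : Perm (Gam p)} (h : Over g w)
    (h' : Over g' w') : Over (g * g') (w * w') := by
  intro γ
  obtain ⟨u', v', z', h1⟩ := h' γ
  obtain ⟨u, v, z, h2⟩ := h (w' γ)
  refine ⟨u' + u, v' + v, z' + z + u * v', fun d => ?_⟩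
  rw [Perm.mul_apply, h1, h2, act_act, Perm.mul_apply]

lemma Over.one : Over (1 : Perm (Gam p × Del p)) 1 := by
  intro γ
  exact ⟨0, 0, 0, fun d => by simp [act]⟩

lemma Over.pow {g : Perm (Gam p × Del p)} {w : Perm (Gam p)} (h : Over g w) (n : ℕ) :
    Over (g ^ n) (w ^ n) := by
  induction n with
  | zero => rw [pow_zero, pow_zero]; exact Over.one
  | succ n ih => rw [pow_succ, pow_succ]; exact ih.mul h

lemma Over.torsion {g : Perm (Gam p × Del p)} (h : Over g 1) : g ^ p ^ 4 = 1 := by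
  ext1 ⟨γ, d⟩
  obtain ⟨u, v, z, h1⟩ := h γ
  have h2 : ∀ (j : ℕ) (d : Del p), (g ^ j) (γ, d) = (γ, (act u v z)^[j] d) := by
    intro j
    induction j with
    | zero => intro d; simp
    | succ j ih =>
      intro d
      rw [pow_succ', Perm.mul_apply, ih, h1, Function.iterate_succ_apply']
      rfl
  rw [h2, act_iter_p4]
  rfl

/-- Elements of the group `S`. -/
def Good (g : Perm (Gam p × Del p)) : Prop :=
  g ∈ FSym (Gam p × Del p) ∧ ∃ w : Perm (Gam p), Tri w ∧ Over g w

lemma Good.mul {g g' : Perm (Gam p × Del p)} (h : Good g) (h' : Good g') : Good (g * g') := by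
  obtain ⟨h1, w, h2, h3⟩ := h
  obtain ⟨h1', w', h2', h3'⟩ := h'
  exact ⟨(FSym _).mul_mem h1 h1', w * w', h2.mul h2', h3.mul h3'⟩

lemma Good.one : Good (1 : Perm (Gam p × Del p)) := ⟨(FSym _).one_mem, 1, Tri.one, Over.one⟩

lemma Good.pow {g : Perm (Gam p × Del p)} (h : Good g) (n : ℕ) : Good (g ^ n) := by
  induction n with
  | zero => rw [pow_zero]; exact Good.one
  | succ n ih => rw [pow_succ]; exact ih.mul h

lemma Good.torsion [Fact p.Prime] {g : Perm (Gam p × Del p)} (h : Good g) :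
    ∃ k, g ^ p ^ k = 1 := by
  obtain ⟨h1, w, h2, h3⟩ := h
  have hfin : {x | w x ≠ x}.Finite := by
    have h4 : {x | g x ≠ x}.Finite := h1
    refine (h4.image Prod.fst).subset ?_
    intro γ hγ
    refine ⟨(γ, 0), ?_, rfl⟩
    intro hcon
    apply hγ
    obtain ⟨u, v, z, h5⟩ := h3 γ
    rw [h5] at hcon
    exact congrArg Prod.fst hcon
  obtain ⟨k, hk⟩ := h2.torsion hfin
  refine ⟨k + 4, ?_⟩
  have h4 := h3.pow (p ^ k)
  rw [hk] at h4
  rw [pow_add, pow_mul]
  exact h4.torsion

lemma Good.inv [Fact p.Prime] {g : Perm (Gam p × Del p)} (h : Good g) : Good g⁻¹ := by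
  obtain ⟨k, hk⟩ := h.torsion
  have h1 : g⁻¹ = g ^ (p ^ k - 1) := by
    rw [inv_eq_iff_mul_eq_one, ← pow_succ', Nat.sub_add_cancel, hk]
    exact Nat.one_le_pow _ _ (Fact.out : p.Prime).pos
  rw [h1]
  exact h.pow _

variable (p) in
/-- The group `S`. -/
def grp [Fact p.Prime] : Subgroup (Perm (Gam p × Del p)) where
  carrier := {g | Good g}
  one_mem' := Good.one
  mul_mem' := fun h h' => h.mul h'
  inv_mem' := fun h => h.inv

/-- partial translation of sequences -/
noncomputable def trans (N : ℕ) (e : Gam p) (he : ∀ m, N ≤ m → e m = 0) : Perm (Gam p) := by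
  classical
  exact
  { toFun := fun z => if ∀ m, N ≤ m → z m = 0 then z + e else z
    invFun := fun z => if ∀ m, N ≤ m → z m = 0 then z - e else z
    left_inv := by
      intro z
      by_cases h : ∀ m, N ≤ m → z m = 0
      · simp only [if_pos h]
        rw [if_pos]
        · simp
        · intro m hm
          simp [h m hm, he m hm]
      · simp only [if_neg h]
    right_inv := by
      intro z
      by_cases h : ∀ m, N ≤ m → z m = 0
      · simp only [if_pos h]
        rw [if_pos]
        · simp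
        · intro m hm
          simp [h m hm, he m hm]
      · simp only [if_neg h] }

lemma trans_pos {N : ℕ} {e : Gam p} {he : ∀ m, N ≤ m → e m = 0} {z : Gam p}
    (h : ∀ m, N ≤ m → z m = 0) : trans N e he z = z + e := by
  simp only [trans, Equiv.coe_fn_mk, if_pos h]

lemma trans_neg {N : ℕ} {e : Gam p} {he : ∀ m, N ≤ m → e m = 0} {z : Gam p}
    (h : ¬ ∀ m, N ≤ m → z m = 0) : trans N e he z = z := by
  simp only [trans, Equiv.coe_fn_mk, if_neg h]

lemma trans_tri (N : ℕ) (e : Gam p) (he : ∀ m, N ≤ m → e m = 0) : Tri (trans N e he) := by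
  intro n x y h
  by_cases hn : N ≤ n
  · have h0 := he n hn
    have h1 : ∀ z : Gam p, trans N e he z n - z n = 0 := by
      intro z
      by_cases hz : ∀ m, N ≤ m → z m = 0
      · rw [trans_pos hz, Finsupp.add_apply, h0]; ring
      · rw [trans_neg hz, sub_self]
    rw [h1, h1]
  · have h2 : (∀ m, N ≤ m → x m = 0) ↔ (∀ m, N ≤ m → y m = 0) := by
      constructor
      · intro hx m hm
        rw [← h m (by omega)]
        exact hx m hm
      · intro hy m hm
        rw [h m (by omega)]
        exact hy m hm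
    by_cases hx : ∀ m, N ≤ m → x m = 0
    · rw [trans_pos hx, trans_pos (h2.1 hx), Finsupp.add_apply, Finsupp.add_apply]
      ring
    · rw [trans_neg hx, trans_neg (fun hy => hx (h2.2 hy)), sub_self, sub_self]

lemma finite_below [Fact p.Prime] (N : ℕ) : {z : Gam p | ∀ m, N ≤ m → z m = 0}.Finite := by
  refine Set.Finite.of_finite_image (f := fun (z : Gam p) (i : Fin N) => z i) (Set.toFinite _) ?_
  intro x hx y hy hxy
  ext m
  by_cases hm : N ≤ m
  · rw [hx m hm, hy m hm]
  · exact congrFun hxy ⟨m, by omega⟩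

lemma grp_trans [Fact p.Prime] : IsTrans (grp p) := by
  classical
  rintro ⟨γ, d⟩ ⟨γ', d'⟩
  -- first move `γ` to `γ'`
  let N : ℕ := (γ.support ∪ γ'.support).sup id + 1
  have hN : ∀ m, N ≤ m → γ m = 0 ∧ γ' m = 0 := by
    intro m hm
    have h1 : m ∉ γ.support ∪ γ'.support := by
      intro h
      have h2 : m ≤ (γ.support ∪ γ'.support).sup id := Finset.le_sup (f := id) h
      omega
    simpa [not_or] using h1
  have he : ∀ m, N ≤ m → (γ' - γ) m = 0 := by
    intro m hm
    simp [(hN m hm).1, (hN m hm).2]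
  let w : Perm (Gam p) := trans N (γ' - γ) he
  let g₁ : Perm (Gam p × Del p) := Equiv.prodCongr w (Equiv.refl _)
  have hg₁ : Good g₁ := by
    refine ⟨?_, w, trans_tri _ _ _, fun γ => ⟨0, 0, 0, fun d => by simp [g₁, act]⟩⟩
    have h1 : ({z : Gam p | ∀ m, N ≤ m → z m = 0} ×ˢ (Set.univ : Set (Del p))).Finite :=
      (finite_below N).prod (Set.toFinite _)
    refine Set.Finite.subset h1 ?_
    rintro ⟨z, c⟩ hz
    refine ⟨?_, trivial⟩
    by_contra hcon
    apply hz
    have h2 : w z = z := trans_neg hcon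
    simp [g₁, h2]
  -- then move inside the fibre
  obtain ⟨u, hu⟩ := ZMod.castHom_surjective (dvd_pow_self p two_ne_zero) (d'.1 - d.1)
  let v := d'.2.1 - d.2.1
  let z := d'.2.2 - d.2.2 - u * d.2.1
  let e : Perm (Del p) :=
    { toFun := act u v z
      invFun := act (-u) (-v) (-z + u * v)
      left_inv := by
        intro c
        rw [act_act]
        simp [act]
      right_inv := by
        intro c
        rw [act_act]
        simp [act] }
  let g₂ : Perm (Gam p × Del p) := Equiv.Perm.prodExtendRight γ' e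
  have hg₂ : Good g₂ := by
    refine ⟨?_, 1, Tri.one, fun γ => ?_⟩
    · have h1 : (({γ'} : Set (Gam p)) ×ˢ (Set.univ : Set (Del p))).Finite :=
        (Set.finite_singleton γ').prod (Set.toFinite _)
      refine Set.Finite.subset h1 ?_
      rintro ⟨y, c⟩ hy
      refine ⟨?_, trivial⟩
      by_contra hcon
      exact hy (Equiv.Perm.prodExtendRight_apply_ne e hcon c)
    · by_cases h : γ = γ'
      · subst h
        exact ⟨u, v, z, fun c => by
          rw [Equiv.Perm.prodExtendRight_apply_eq]; rfl⟩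
      · exact ⟨0, 0, 0, fun c => by
          rw [Equiv.Perm.prodExtendRight_apply_ne e h c]
          simp [act]⟩
  refine ⟨g₂ * g₁, hg₂.mul hg₁, ?_⟩
  have h1 : w γ = γ' := by
    rw [show w γ = γ + (γ' - γ) from trans_pos fun m hm => (hN m hm).1]
    simp
  have h2 : g₁ (γ, d) = (γ', d) := by simp [g₁, h1]
  rw [Perm.mul_apply, h2, Equiv.Perm.prodExtendRight_apply_eq]
  have h3 : act u v z d = d' := by
    simp only [act, v, z]
    refine Prod.ext ?_ (Prod.ext ?_ ?_)
    · simp only [red, hu]; ring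
    · simp only; ring
    · simp only; ring
  show (γ', act u v z d) = (γ', d')
  rw [h3]

lemma mul_p_of_red [Fact p.Prime] {t : ZMod (p ^ 2)} (h : red p t = 0) :
    (p : ZMod (p ^ 2)) * t = 0 := by
  have hp : p.Prime := Fact.out
  have : NeZero (p ^ 2) := ⟨pow_ne_zero 2 hp.ne_zero⟩
  have h1 : t = ((t.val : ℕ) : ZMod (p ^ 2)) := (ZMod.natCast_zmod_val t).symm
  rw [h1, map_natCast, ZMod.natCast_eq_zero_iff] at h
  rw [h1, ← Nat.cast_mul, ZMod.natCast_eq_zero_iff]
  have h2 := Nat.mul_dvd_mul_left p h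
  rwa [← pow_two] at h2

/-- The key point: transitive subgroups of `S` have an element with a cycle which is not a
block. -/
lemma not_blocks [Fact p.Prime] (H : Subgroup (Perm (Gam p × Del p))) (hH : H ≤ grp p)
    (hT : IsTrans H) : ∃ h ∈ H, ∃ x, ¬ IsBlk H {y | ∃ n : ℤ, (h ^ n) x = y} := by
  have hp : p.Prime := Fact.out
  have : NeZero (p ^ 2) := ⟨pow_ne_zero 2 hp.ne_zero⟩
  obtain ⟨h₁, hh₁, e₁⟩ := hT (0, (0, 0, 0)) (0, (1, 0, 0))
  obtain ⟨h₂, hh₂, e₂⟩ := hT (0, (0, 0, 0)) (0, (0, 1, 0))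
  obtain ⟨-, w₁, -, o₁⟩ := hH hh₁
  obtain ⟨g₂, w₂, -, o₂⟩ := hH hh₂
  obtain ⟨u₁, v₁, z₁, f₁⟩ := o₁ 0
  obtain ⟨u₂, v₂, z₂, f₂⟩ := o₂ 0
  rw [f₁] at e₁
  rw [f₂] at e₂
  simp only [act, Prod.mk.injEq, zero_add, mul_zero, add_zero] at e₁ e₂
  obtain ⟨ew₁, eu₁, ev₁, ez₁⟩ := e₁
  obtain ⟨ew₂, eu₂, ev₂, ez₂⟩ := e₂
  have k₁ : ∀ (j : ℕ) (x : ZMod p) (y z : ZMod (p ^ 2)),
      (h₁ ^ j) (0, (x, y, z)) = (0, (x + j, y, z + j * u₁ * y)) := by
    intro j
    induction j with
    | zero => intro x y z; simp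
    | succ j ih =>
      intro x y z
      rw [pow_succ', Perm.mul_apply, ih, f₁, ew₁]
      simp only [act, eu₁, ev₁, ez₁, add_zero]
      refine Prod.ext rfl (Prod.ext ?_ (Prod.ext rfl ?_))
      · simp only; push_cast; ring
      · simp only; push_cast; ring
  have k₁p : ∀ (x : ZMod p) (y z : ZMod (p ^ 2)),
      (h₁ ^ p) (0, (x, y, z)) = (0, (x, y, z + p * y)) := by
    intro x y z
    rw [k₁]
    have h1 : (p : ZMod (p ^ 2)) * u₁ = p := by
      have h2 : (p : ZMod (p ^ 2)) * (u₁ - 1) = 0 := by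
        apply mul_p_of_red
        rw [map_sub, eu₁, map_one, sub_self]
      linear_combination h2
    rw [h1, CharP.cast_eq_zero, add_zero]
  have k₂ : ∀ n : ℕ, (h₂ ^ n) (0, (0, 0, 0)) = (0, (0, (n : ZMod (p ^ 2)), u₂ * (n.choose 2 : ℕ))) := by
    intro n
    induction n with
    | zero => simp
    | succ n ih =>
      rw [pow_succ', Perm.mul_apply, ih, f₂, ew₂]
      simp only [act, eu₂, ev₂, ez₂, add_zero]
      refine Prod.ext rfl (Prod.ext rfl (Prod.ext ?_ ?_))
      · simp only; push_cast; ring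
      · simp only
        have : (n + 1).choose 2 = n + n.choose 2 := by
          rw [Nat.choose_succ_succ' n 1, Nat.choose_one_right]
        rw [this]
        push_cast
        ring
  refine ⟨h₂, hh₂, (0, (0, 0, 0)), ?_⟩
  rintro ⟨-, hB⟩
  have hmem0 : ((0, (0, 0, 0)) : Gam p × Del p) ∈
      {y | ∃ n : ℤ, (h₂ ^ n) (0, (0, 0, 0)) = y} := ⟨0, by simp⟩
  have hmem1 : ((0, (0, 1, 0)) : Gam p × Del p) ∈
      {y | ∃ n : ℤ, (h₂ ^ n) (0, (0, 0, 0)) = y} := by
    refine ⟨1, ?_⟩
    have := k₂ 1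
    simpa using this
  have hnot : ((0, (0, 1, (p : ZMod (p ^ 2)))) : Gam p × Del p) ∉
      {y | ∃ n : ℤ, (h₂ ^ n) (0, (0, 0, 0)) = y} := by
    rintro ⟨n, hn⟩
    -- reduce to natural exponents
    obtain ⟨k, hk⟩ := Good.torsion (hH hh₂)
    have hfo : IsOfFinOrder h₂ :=
      isOfFinOrder_iff_pow_eq_one.2 ⟨p ^ k, pow_pos hp.pos k, hk⟩
    have h1 : h₂ ^ n ∈ Submonoid.powers h₂ := by
      rw [hfo.mem_powers_iff_mem_zpowers]
      exact ⟨n, rfl⟩
    obtain ⟨m, hm⟩ := h1
    simp only at hm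
    rw [← hm, k₂ m] at hn
    simp only [Prod.mk.injEq, true_and] at hn
    obtain ⟨hn1, hn2⟩ := hn
    have hp2 : 1 < p ^ 2 := Nat.one_lt_pow two_ne_zero hp.one_lt
    -- `m ≡ 1 mod p²`
    have hm1 : p ^ 2 ∣ m - 1 ∧ 1 ≤ m := by
      have h3 : (m : ZMod (p ^ 2)) = ((1 : ℕ) : ZMod (p ^ 2)) := by rw [hn1, Nat.cast_one]
      rw [ZMod.natCast_eq_natCast_iff] at h3
      have h4 : 1 ≤ m := by
        rcases Nat.eq_zero_or_pos m with h5 | h5
        · rw [h5] at h3
          have h6 := Nat.le_of_dvd one_pos ((Nat.modEq_iff_dvd' (Nat.zero_le 1)).1 h3)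
          omega
        · exact h5
      exact ⟨(Nat.modEq_iff_dvd' h4).1 h3.symm, h4⟩
    have h5 : p ^ 2 ∣ 2 * m.choose 2 := by
      have h6 : 2 * m.choose 2 = m * (m - 1) := by
        rw [Nat.choose_two_right]
        exact Nat.mul_div_cancel' (Nat.even_mul_pred_self m).two_dvd
      rw [h6]
      exact Dvd.dvd.mul_left hm1.1 m
    have h7 : p ∣ m.choose 2 := by
      rcases hp.eq_two_or_odd' with h8 | h8
      · subst h8
        omega
      · have h9 : Nat.Coprime (p ^ 2) 2 :=
          (Nat.Coprime.pow_left 2 (Nat.Coprime.symm (Nat.coprime_two_left.2 h8)))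
        exact (dvd_pow_self p two_ne_zero).trans (h9.dvd_of_dvd_mul_left h5)
    have h8 : u₂ * ((m.choose 2 : ℕ) : ZMod (p ^ 2)) = 0 := by
      obtain ⟨q, hq⟩ := h7
      rw [hq]
      push_cast
      have h9 := mul_p_of_red eu₂
      linear_combination (q : ZMod (p ^ 2)) * h9
    rw [h8] at hn2
    have h9 : ((p : ℕ) : ZMod (p ^ 2)) = 0 := hn2.symm
    rw [ZMod.natCast_eq_zero_iff] at h9
    have h10 := Nat.le_of_dvd hp.pos h9
    nlinarith [hp.two_le]
  rcases hB (h₁ ^ p) (H.pow_mem hh₁ p) with hB | hB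
  · apply hnot
    rw [← hB]
    refine ⟨_, hmem1, ?_⟩
    rw [k₁p]
    simp
  · rw [Set.disjoint_left] at hB
    refine hB (a := (0, (0, 0, 0))) ⟨_, hmem0, ?_⟩ hmem0
    rw [k₁p]
    simp

end Construction

/-- For every prime `p` there are a countably infinite set `Ω` and a transitive group `G` of
finitary permutations of `Ω` with a transitive Sylow `p`-subgroup `S` such that no transitive
subgroup of `S` has the cyclic-block property. -/
theorem result (p : ℕ) (hp : p.Prime) : ∃ Ω : Type, Countable Ω ∧ Infinite Ω ∧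
    ∃ G S : Subgroup (Equiv.Perm Ω), G ≤ FSym Ω ∧ IsTrans G ∧ IsSylowSub p G S ∧ IsTrans S ∧
      ∀ H : Subgroup (Equiv.Perm Ω), H ≤ S → IsTrans H → ¬ HasCyclicBlocks p H := by
  have : Fact p.Prime := ⟨hp⟩
  refine ⟨Gam p × Del p, inferInstance, inferInstance, grp p, grp p, fun g hg => hg.1,
    grp_trans, ⟨le_rfl, ?_, fun Q hQ _ hSQ => le_antisymm hQ hSQ⟩, grp_trans, ?_⟩
  · rintro ⟨g, hg⟩
    obtain ⟨k, hk⟩ := Good.torsion hg
    exact ⟨k, Subtype.ext hk⟩
  · intro H hH hT hC
    obtain ⟨h, hh, x, hx⟩ := not_blocks H hH hT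
    exact hx (hC.2.2.2 h hh x)

end Pool.Agent.Results.MP_f6f917_al.CyclicBlocks
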